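import Pool.Agent.Helper75.PX.Stmts6
import Pool.Agent.Helper50.PX.TRZ

/-!
# Row A4b: a separable quadratic element, characteristic two
-/

set_option autoImplicit false

universe u

open Module Polynomial

namespace Pool.Agent.Helper75.PX

section

variable {K D : Type u} [Field K] [DivisionRing D] [Algebra K D]

theorem A4b_dim [FiniteDimensional K D] (i : D) :
    finrank K (trz_E K i) = (minpoly K i).natDegree := by
  refine le_antisymm (trz_finrank i) ?_
  have hli : LinearIndependent K (fun n : Fin (minpoly K i).natDegree => i ^ (n : ℕ)) :=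
    linearIndependent_pow i
  let g : Fin (minpoly K i).natDegree → trz_E K i := fun n => ⟨i ^ (n : ℕ), X ^ (n : ℕ), by simp⟩
  have hg : LinearIndependent K g := by
    have : (fun n : Fin (minpoly K i).natDegree => i ^ (n : ℕ)) = (trz_E K i).subtype ∘ g := rfl
    rw [this] at hli
    exact LinearIndependent.of_comp _ hli
  have h1 := hg.fintype_card_le_finrank
  rw [Fintype.card_fin] at h1
  exact h1

theorem A4b_com (t v : D) (h : v * t = t * v) : ∀ e ∈ trz_E K t, v * e = e * v := by
  rintro _ ⟨p, rfl⟩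
  change v * aeval t p = aeval t p * v
  induction p using Polynomial.induction_on' with
  | add p q hp hq => rw [map_add, mul_add, add_mul, hp, hq]
  | monomial n a =>
    rw [aeval_monomial]
    have h1 : v * t ^ n = t ^ n * v := (Commute.pow_right h n)
    rw [← mul_assoc, ← Algebra.commutes a v, mul_assoc, h1, mul_assoc]

theorem A4b_two [FiniteDimensional K D] (u : D) (h : (minpoly K u).natDegree = 2) :
    ∃ s n : K, u * u = s • u + algebraMap K D n := by
  have h0 := minpoly.aeval K u
  have hm := (minpoly.monic (Algebra.IsIntegral.isIntegral (R := K) u)).coeff_natDegree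
  rw [h] at hm
  rw [aeval_eq_sum_range, h] at h0
  simp only [Finset.sum_range_succ, Finset.sum_range_zero, hm, pow_zero, pow_one, one_smul,
    zero_add] at h0
  refine ⟨-(minpoly K u).coeff 1, -(minpoly K u).coeff 0, ?_⟩
  rw [map_neg, Algebra.algebraMap_eq_smul_one, neg_smul, ← pow_two]
  have h1 : u ^ 2 = -((minpoly K u).coeff 0 • (1 : D) + (minpoly K u).coeff 1 • u) :=
    eq_neg_of_add_eq_zero_right h0
  rw [h1]
  abel

theorem A4b_s (u : D) (hu : ∀ k : K, u ≠ algebraMap K D k) (s n : K) (hs : s ≠ 0)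
    (h : u * u = s • u + algebraMap K D n) :
    ∃ (α : D) (a : K), α * α = α + algebraMap K D a ∧ ∀ k : K, α ≠ algebraMap K D k := by
  refine ⟨s⁻¹ • u, s⁻¹ * s⁻¹ * n, ?_, ?_⟩
  · rw [smul_mul_smul_comm, h, smul_add, smul_smul, mul_assoc, inv_mul_cancel₀ hs, mul_one,
      map_mul, ← Algebra.smul_def]
  · intro k hk
    refine hu (s * k) ?_
    rw [map_mul, ← hk, ← Algebra.smul_def, smul_smul, mul_inv_cancel₀ hs, one_smul]

theorem A4b_cases [Algebra.IsCentral K D] (h1 : ST_MPD.{u}) (h2 : ST_MDV.{u})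
    [FiniteDimensional K D] (hfr : finrank K D = 16) (u : D) (hu : ∀ k : K, u ≠ algebraMap K D k) :
    (minpoly K u).natDegree = 2 ∨ (minpoly K u).natDegree = 4 := by
  have a1 : 0 < (minpoly K u).natDegree := minpoly.natDegree_pos (IsIntegral.of_finite K u)
  have a2 : (minpoly K u).natDegree ≤ 4 := h1 K D 4 (by norm_num) (by rw [hfr]; norm_num) u
  have a3 : (minpoly K u).natDegree ∣ 16 := by
    have := h2 K D u
    rwa [hfr] at this
  have a4 : (minpoly K u).natDegree ≠ 1 := by
    intro h
    rw [minpoly.natDegree_eq_one_iff] at h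
    obtain ⟨k, hk⟩ := h
    exact hu k hk.symm
  interval_cases (minpoly K u).natDegree
  · exact absurd rfl a4
  · left; rfl
  · exfalso; revert a3; decide
  · right; rfl

theorem A4b_P [Algebra.IsCentral K D] (h1 : ST_MPD.{u}) (h2 : ST_MDV.{u})
    [FiniteDimensional K D] (hfr : finrank K D = 16) (h2K : (2 : K) = 0) (v : D)
    (hv : ∀ k : K, v ≠ algebraMap K D k) (m : K) (hvm : v * v = algebraMap K D m) :
    ∃ (α : D) (a : K), α * α = α + algebraMap K D a ∧ ∀ k : K, α ≠ algebraMap K D k := by
  have hD2 : ∀ z : D, z + z = 0 := by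
    intro z
    have h3 : (2 : D) = 0 := by
      have h4 : algebraMap K D 2 = (2 : D) := map_ofNat _ 2
      rw [← h4, h2K, map_zero]
    rw [← two_mul, h3, zero_mul]
  have hv0 : v ≠ 0 := by
    intro h
    exact hv 0 (by rw [map_zero]; exact h)
  obtain ⟨x0, hx0⟩ : ∃ x0 : D, x0 * v ≠ v * x0 := by
    by_contra hc
    push Not at hc
    have h3 : v ∈ Subalgebra.center K D := by
      rw [Subalgebra.mem_center_iff]
      exact hc
    have h4 := Algebra.IsCentral.out (K := K) h3
    rw [Algebra.mem_bot] at h4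
    obtain ⟨k, hk⟩ := h4
    exact hv k hk.symm
  set g : D := v * x0 + x0 * v with hg
  have hg0 : g ≠ 0 := by
    intro h
    apply hx0
    have h3 : v * x0 = -(x0 * v) := eq_neg_of_add_eq_zero_left h
    have h4 : -(x0 * v) = x0 * v := by
      rw [neg_eq_iff_add_eq_zero]; exact hD2 _
    rw [h3, h4]
  have hgv : v * g = g * v := by
    rw [hg, mul_add, add_mul, ← mul_assoc, hvm, mul_assoc x0 v v, hvm, ← Algebra.commutes m x0,
      ← mul_assoc]
    exact add_comm _ _
  have hgi : v * g⁻¹ = g⁻¹ * v := (Commute.inv_right₀ hgv)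
  set y : D := x0 * g⁻¹ * v with hy
  have hvy0 : v * y + y * v = v := by
    have e1 : y * v = x0 * v * g⁻¹ * v := by
      rw [hy, mul_assoc x0 g⁻¹ v, ← hgi, ← mul_assoc]
    have e2 : v * y = v * x0 * g⁻¹ * v := by
      rw [hy, ← mul_assoc, ← mul_assoc]
    rw [e1, e2, ← add_mul, ← add_mul, ← hg, mul_inv_cancel₀ hg0, one_mul]
  have hvy : v * y = y * v + v := by
    calc v * y = (v * y + y * v) + y * v := by rw [add_assoc, hD2, add_zero]
      _ = v + y * v := by rw [hvy0]
      _ = y * v + v := add_comm _ _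
  have hny : v * y ≠ y * v := by
    intro h
    rw [h] at hvy
    exact hv0 (left_eq_add.1 hvy)
  set t : D := y * y + y with ht
  have hvt : v * t = t * v := by
    have e1 : v * (y * y) = y * y * v + v := by
      rw [← mul_assoc, hvy, add_mul, mul_assoc y v y, hvy, mul_add, ← mul_assoc]
      calc y * y * v + y * v + (y * v + v) = y * y * v + (y * v + y * v) + v := by abel
        _ = y * y * v + v := by rw [hD2, add_zero]
    rw [ht, mul_add, add_mul, e1, hvy]
    calc y * y * v + v + (y * v + v) = y * y * v + y * v + (v + v) := by abel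
      _ = y * y * v + y * v := by rw [hD2, add_zero]
  have hyy : y * y = y + t := by
    calc y * y = y * y + (y + y) := by rw [hD2, add_zero]
      _ = y + t := by rw [ht]; abel
  have hty : t * y = y * t := by
    rw [ht, add_mul, mul_add, mul_assoc]
  by_cases htK : ∃ k : K, t = algebraMap K D k
  · obtain ⟨k, hk⟩ := htK
    refine ⟨y, k, ?_, ?_⟩
    · rw [← hk]; exact hyy
    · intro c hc
      exact hny (by rw [hc]; exact (Algebra.commutes c v).symm)
  · push Not at htK
    have hdt : (minpoly K t).natDegree = 2 := by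
      rcases A4b_cases h1 h2 hfr t htK with h | h
      · exact h
      · exfalso
        have hle : trz_E K t ≤ trz_E K y := by
          rintro _ ⟨p, rfl⟩
          have h4 : t = aeval y (X * X + X : K[X]) := by
            rw [map_add, map_mul, aeval_X]
          refine ⟨p.comp (X * X + X), ?_⟩
          change aeval y (p.comp (X * X + X)) = aeval t p
          rw [aeval_comp, ← h4]
        have h5 : finrank K (trz_E K y) ≤ finrank K (trz_E K t) := by
          rw [A4b_dim, A4b_dim, h]
          exact h1 K D 4 (by norm_num) (by rw [hfr]; norm_num) y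
        have h6 := Submodule.eq_of_le_of_finrank_le hle h5
        have h7 : y ∈ trz_E K t := by rw [h6]; exact trz_self y
        exact hny (A4b_com t v hvt y h7)
    obtain ⟨s, n, hsn⟩ := A4b_two t hdt
    by_cases hs : s = 0
    · rw [hs, zero_smul, zero_add] at hsn
      refine ⟨y * y, n, ?_, ?_⟩
      · rw [hyy]
        calc (y + t) * (y + t) = y * y + (y * t + t * y) + t * t := by
              rw [add_mul, mul_add y y t, mul_add t y t]; abel
          _ = y * y + t * t := by rw [hty, hD2, add_zero]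
          _ = y + t + algebraMap K D n := by rw [hyy, hsn]
      · intro c hc
        have h3 : v * (y * y) = y * y * v := by
          rw [hc]; exact (Algebra.commutes c v).symm
        rw [hyy, mul_add, add_mul, hvy, hvt] at h3
        have h4 : y * v + v = y * v := add_right_cancel h3
        exact hv0 (add_eq_left.1 h4)
    · exact A4b_s t htK s n hs hsn

theorem A4b_Q [Algebra.IsCentral K D] (h1 : ST_MPD.{u}) (h2 : ST_MDV.{u})
    [FiniteDimensional K D] (hfr : finrank K D = 16) (h2K : (2 : K) = 0) (v : D)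
    (hv : ∀ k : K, v ≠ algebraMap K D k) (s n : K) (hvm : v * v = s • v + algebraMap K D n) :
    ∃ (α : D) (a : K), α * α = α + algebraMap K D a ∧ ∀ k : K, α ≠ algebraMap K D k := by
  by_cases hs : s = 0
  · rw [hs, zero_smul, zero_add] at hvm
    exact A4b_P h1 h2 hfr h2K v hv n hvm
  · exact A4b_s v hv s n hs hvm

end

theorem st_A4b (h0 : ST_EE.{u}) (h1 : ST_MPD.{u}) (h2 : ST_MDV.{u}) (h5 : ST_MIN.{u}) :
    ST_A4b.{u} := by
  intro K D _ _ _ _ hfr h2K
  have : FiniteDimensional K D := FiniteDimensional.of_finrank_pos (by omega)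
  obtain ⟨τ, e, ⟨x0, hx0⟩, -, -, hτ, -⟩ := h0 K D hfr h2K
  by_cases hex : ∃ x : D, (minpoly K x).natDegree = 2
  · obtain ⟨x, hx⟩ := hex
    obtain ⟨s, n, hsn⟩ := A4b_two x hx
    refine A4b_Q h1 h2 hfr h2K x ?_ s n hsn
    intro k hk
    rw [hk, minpoly.natDegree_eq_one_iff.2 ⟨k, rfl⟩] at hx
    omega
  push Not at hex
  have hdeg : ∀ v : D, (∀ k : K, v ≠ algebraMap K D k) → (minpoly K v).natDegree = 4 := by
    intro v hv
    rcases A4b_cases h1 h2 hfr v hv with h | h
    · exact absurd h (hex v)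
    · exact h
  obtain ⟨y, hy⟩ : ∃ y : D, ∀ k : K, y ≠ algebraMap K D k := by
    by_contra hcon
    push Not at hcon
    have h7 : finrank K D ≤ 1 := by
      refine finrank_le_one (1 : D) ?_
      intro w
      obtain ⟨k, hk⟩ := hcon w
      exact ⟨k, by rw [hk, Algebra.algebraMap_eq_smul_one]⟩
    omega
  obtain ⟨x, hx, hτx⟩ : ∃ x : D, (∀ k : K, x ≠ algebraMap K D k) ∧ τ x ≠ 0 := by
    by_cases hk : ∃ k : K, x0 = algebraMap K D k
    · obtain ⟨k0, hk0⟩ := hk
      by_cases hty : τ y = 0
      · refine ⟨y + x0, fun k hk => hy (k - k0) ?_, ?_⟩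
        · rw [map_sub, ← hk, hk0, add_sub_cancel_right]
        · rw [map_add, hty, zero_add]
          exact hx0
      · exact ⟨y, hy, hty⟩
    · push Not at hk
      exact ⟨x0, hk, hx0⟩
  have hE3 : finrank K (trz_E K x) = 4 := (A4b_dim x).trans (hdeg x hx)
  let φ : D →ₗ[K] (trz_E K x →ₗ[K] K) :=
    { toFun := fun v => τ ∘ₗ LinearMap.mulRight K v ∘ₗ (trz_E K x).subtype
      map_add' := by
        intro v w
        ext e
        simp [mul_add]
      map_smul' := by
        intro c v
        ext e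
        simp }
  have hφ : ∀ (v : D) (e : trz_E K x), φ v e = τ ((e : D) * v) := fun v e => rfl
  have hker : LinearMap.ker φ ≠ ⊥ := by
    apply LinearMap.ker_ne_bot_of_finrank_lt
    rw [Module.finrank_linearMap, Module.finrank_self, mul_one, hE3, hfr]
    norm_num
  obtain ⟨w, hw, hw0⟩ := (Submodule.ne_bot_iff _).1 hker
  have hw' : ∀ e ∈ trz_E K x, τ (e * w) = 0 := by
    intro e he
    rw [← hφ w ⟨e, he⟩, LinearMap.mem_ker.1 hw]
    rfl
  let ψ : trz_E K x →ₗ[K] K := τ ∘ₗ LinearMap.mulLeft K w⁻¹ ∘ₗ (trz_E K x).subtype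
  have hψ : ∀ e : trz_E K x, ψ e = τ (w⁻¹ * e) := fun e => rfl
  have hker2 : LinearMap.ker ψ ≠ ⊥ := by
    apply LinearMap.ker_ne_bot_of_finrank_lt
    rw [Module.finrank_self, hE3]
    norm_num
  obtain ⟨f, hf, hf0⟩ := (Submodule.ne_bot_iff _).1 hker2
  have hfa : τ (w⁻¹ * (f : D)) = 0 := by
    rw [← hψ]
    exact LinearMap.mem_ker.1 hf
  have hf0' : (f : D) ≠ 0 := fun h => hf0 (Subtype.ext h)
  have hfi : (f : D)⁻¹ ∈ trz_E K x := trz_inv f.2 hf0'
  set v : D := (f : D)⁻¹ * w with hvdef
  have hv0 : v ≠ 0 := mul_ne_zero (inv_ne_zero hf0') hw0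
  have ht1 : τ v = 0 := hw' _ hfi
  have ht2 : τ v⁻¹ = 0 := by
    rw [hvdef, mul_inv_rev, inv_inv]
    exact hfa
  have hvK : ∀ k : K, v ≠ algebraMap K D k := by
    intro k hk
    have hwE : w ∈ trz_E K x := by
      have h6 : w = k • (f : D) := by
        have h7 : (f : D) * v = w := by rw [hvdef, ← mul_assoc, mul_inv_cancel₀ hf0', one_mul]
        rw [← h7, hk, Algebra.smul_def, Algebra.commutes]
      rw [h6]
      exact Submodule.smul_mem _ _ f.2
    have h8 := hw' _ (trz_mul (trz_self x) (trz_inv hwE hw0))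
    rw [mul_assoc, inv_mul_cancel₀ hw0, mul_one] at h8
    exact hτx h8
  have hdv := hdeg v hvK
  have hc1 := (hτ v hdv).1
  rw [ht1, neg_zero] at hc1
  obtain ⟨hm1, hm2⟩ := h5 K D v hv0
  have hc2 := (hτ v⁻¹ (hm1.trans hdv)).1
  rw [ht2, neg_zero] at hc2
  rw [hdv] at hm2
  have hc3 := hm2 hc2
  have h00 := minpoly.aeval K v
  have hm := (minpoly.monic (Algebra.IsIntegral.isIntegral (R := K) v)).coeff_natDegree
  rw [hdv] at hm
  rw [aeval_eq_sum_range, hdv] at h00
  simp only [Finset.sum_range_succ, Finset.sum_range_zero, hm, hc1, hc3, pow_zero, pow_one,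
    one_smul, zero_smul, zero_add, add_zero] at h00
  refine A4b_Q h1 h2 hfr h2K (v * v) ?_ (-(minpoly K v).coeff 2) (-(minpoly K v).coeff 0) ?_
  · intro k hk
    have h9 : (minpoly K v).natDegree ≤ 2 := by
      have h10 : aeval v (X ^ 2 - C k : K[X]) = 0 := by
        rw [map_sub, map_pow, aeval_X, aeval_C, pow_two, hk, sub_self]
      exact le_trans (natDegree_le_of_dvd (minpoly.dvd K v h10) (X_pow_sub_C_ne_zero (by norm_num) k))
        (by rw [natDegree_X_pow_sub_C])
    omega
  · rw [map_neg, Algebra.algebraMap_eq_smul_one, neg_smul]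
    have h12 : v * v * (v * v) = v ^ 4 := by
      rw [← pow_two, ← pow_two, ← pow_mul]
    rw [h12, ← pow_two]
    have h13 : v ^ 4 = -((minpoly K v).coeff 0 • (1 : D) + (minpoly K v).coeff 2 • v ^ 2) :=
      eq_neg_of_add_eq_zero_right h00
    rw [h13]
    abel

end Pool.Agent.Helper75.PX
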