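import Pool.Agent.Helper75.PX.Stmts4

/-!
# Row TRR: splitting with rational traces
-/

set_option autoImplicit false

universe u

open Module TensorProduct
open scoped Kronecker

namespace Pool.Agent.Helper75.PX

theorem trr_smul {K Ω : Type u} [Field K] [Field Ω] [Algebra K Ω] {n : ℕ} (k : K)
    (M : Matrix (Fin n) (Fin n) Ω) : k • M = (algebraMap K Ω k) • M := by
  ext i j
  simp [Algebra.smul_def]

theorem trr_kron {Ω : Type u} [Field Ω] {n : ℕ} (M : Matrix (Fin n) (Fin n) Ω) :
    (LinearMap.mulLeft Ω M).charpoly = M.charpoly ^ n := by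
  rw [← LinearMap.charpoly_toMatrix _ (Matrix.stdBasis Ω (Fin n) (Fin n))]
  have h : LinearMap.toMatrix (Matrix.stdBasis Ω (Fin n) (Fin n))
      (Matrix.stdBasis Ω (Fin n) (Fin n)) (LinearMap.mulLeft Ω M) =
      M ⊗ₖ (1 : Matrix (Fin n) (Fin n) Ω) := by
    ext ⟨i, j⟩ ⟨i', j'⟩
    rw [LinearMap.toMatrix_apply, LinearMap.mulLeft_apply, Matrix.stdBasis_eq_single]
    have h2 : ∀ N : Matrix (Fin n) (Fin n) Ω,
        (Matrix.stdBasis Ω (Fin n) (Fin n)).repr N (i, j) = N i j := fun N => rfl
    rw [h2, Matrix.kroneckerMap_apply]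
    by_cases hj : j = j'
    · subst hj
      simp
    · rw [Matrix.one_apply_ne hj, mul_zero]
      simp [Matrix.mul_apply, Matrix.single_apply, Ne.symm hj]
  rw [h, Matrix.charpoly]
  have h3 : Matrix.charmatrix (M ⊗ₖ (1 : Matrix (Fin n) (Fin n) Ω)) =
      (Matrix.charmatrix M) ⊗ₖ (1 : Matrix (Fin n) (Fin n) (Polynomial Ω)) := by
    ext1 ⟨i, j⟩ ⟨i', j'⟩
    rw [Matrix.charmatrix_apply, Matrix.kroneckerMap_apply, Matrix.kroneckerMap_apply,
      Matrix.charmatrix_apply]
    by_cases hj : j = j'
    · subst hj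
      by_cases hi : i = i'
      · subst hi
        simp
      · rw [Matrix.diagonal_apply_ne _ hi, Matrix.diagonal_apply_ne _ (by simpa using hi)]
        simp
    · rw [Matrix.one_apply_ne hj, Matrix.one_apply_ne hj,
        Matrix.diagonal_apply_ne _ (by simp [hj])]
      simp
  rw [h3, Matrix.det_kronecker]
  simp [Matrix.charpoly]

theorem trr_map {K A Ω : Type u} [Field K] [Ring A] [Algebra K A] [Field Ω] [Algebra K Ω]
    (n : ℕ) (Ψ : A →ₐ[K] Matrix (Fin n) (Fin n) Ω)
    (hspan : Submodule.span Ω (Set.range Ψ) = ⊤) (hn : 0 < n) (hrank : finrank K A = n ^ 2)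
    (x : A) (_ : FiniteDimensional K A) :
    (LinearMap.mulLeft K x).charpoly.map (algebraMap K Ω) = (Ψ x).charpoly ^ n := by
  classical
  set b : Basis (Fin (n ^ 2)) K A := finBasisOfFinrankEq K A hrank with hb
  set E : Fin (n ^ 2) → Matrix (Fin n) (Fin n) Ω := fun i => Ψ (b i) with hE
  have hΨ : ∀ x : A, Ψ x = ∑ i, algebraMap K Ω (b.repr x i) • E i := by
    intro x
    conv_lhs => rw [← b.sum_repr x]
    rw [map_sum]
    refine Finset.sum_congr rfl fun i _ => ?_
    rw [map_smul, trr_smul]
  have htop : ⊤ ≤ Submodule.span Ω (Set.range E) := by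
    rw [← hspan, Submodule.span_le]
    rintro _ ⟨x, rfl⟩
    rw [SetLike.mem_coe, hΨ x]
    exact Submodule.sum_mem _ fun i _ =>
      Submodule.smul_mem _ _ (Submodule.subset_span ⟨i, rfl⟩)
  have hcard : Fintype.card (Fin (n ^ 2)) = finrank Ω (Matrix (Fin n) (Fin n) Ω) := by
    rw [Fintype.card_fin, Module.finrank_matrix]
    simp [sq]
  set bE := basisOfTopLeSpanOfCardEqFinrank E htop hcard with hbE
  have hbEi : ∀ i, bE i = E i := fun i => by
    rw [hbE, coe_basisOfTopLeSpanOfCardEqFinrank]
  have hrepr : ∀ (x : A) (i : Fin (n ^ 2)), bE.repr (Ψ x) i = algebraMap K Ω (b.repr x i) := by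
    intro x i
    have h1 : Ψ x = ∑ i, algebraMap K Ω (b.repr x i) • bE i := by
      rw [hΨ x]
      exact Finset.sum_congr rfl fun i _ => by rw [hbEi]
    rw [h1, bE.repr_sum_self]
  rw [← trr_kron, ← LinearMap.charpoly_toMatrix _ b, ← LinearMap.charpoly_toMatrix _ bE,
    ← Matrix.charpoly_map]
  congr 1
  ext i j
  rw [Matrix.map_apply, LinearMap.toMatrix_apply, LinearMap.toMatrix_apply,
    LinearMap.mulLeft_apply, LinearMap.mulLeft_apply, hbEi, hE]
  simp only
  rw [← map_mul, hrepr]

theorem st_TRR (hSPS : ST_SPS.{u}) : ST_TRR.{u} := by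
  classical
  intro K A _ _ _ _ _ n hn hrank
  obtain ⟨Ψ, hspan⟩ := hSPS K A n hn hrank
  have hfd : FiniteDimensional K A := FiniteDimensional.of_finrank_pos (by rw [hrank]; positivity)
  haveI : Nonempty (Fin n) := ⟨⟨0, hn⟩⟩
  have htr : ∀ x : A, ∃ k : K, (Ψ x).trace = algebraMap K (SeparableClosure K) k := by
    intro x
    have hfix : ∀ σ : (SeparableClosure K) ≃ₐ[K] (SeparableClosure K),
        σ (Ψ x).trace = (Ψ x).trace := by
      intro σ
      set f := (Ψ x).charpoly with hf
      have h1 : f.map (σ : SeparableClosure K →+* SeparableClosure K) ^ n = f ^ n := by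
        rw [← Polynomial.map_pow, hf, ← trr_map n Ψ hspan hn hrank x hfd, Polynomial.map_map]
        congr 1
        ext k
        simp
      have hm : f.Monic := Matrix.charpoly_monic _
      have hm2 : (f.map (σ : SeparableClosure K →+* SeparableClosure K)).Monic := hm.map _
      have h2 : f.map (σ : SeparableClosure K →+* SeparableClosure K) = f := by
        refine Polynomial.eq_of_monic_of_associated hm2 hm (associated_of_dvd_dvd ?_ ?_)
        · exact (IsIntegrallyClosed.pow_dvd_pow_iff hn.ne').1 (by rw [h1])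
        · exact (IsIntegrallyClosed.pow_dvd_pow_iff hn.ne').1 (by rw [h1])
      rw [Matrix.trace_eq_neg_charpoly_coeff, map_neg, ← hf]
      congr 1
      conv_rhs => rw [← h2]
      rw [Polynomial.coeff_map]
      rfl
    obtain ⟨k, hk⟩ := (InfiniteGalois.mem_range_algebraMap_iff_fixed (Ψ x).trace).2 hfix
    exact ⟨k, hk.symm⟩
  set ι : SeparableClosure K →ₐ[K] AlgebraicClosure K :=
    IsScalarTower.toAlgHom K (SeparableClosure K) (AlgebraicClosure K) with hι
  have hmap : ∀ x, ((AlgHom.mapMatrix ι).comp Ψ) x = (Ψ x).map ι := fun x => rfl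
  refine ⟨(AlgHom.mapMatrix ι).comp Ψ, ?_, ?_⟩
  · have h1 : ∀ N : Matrix (Fin n) (Fin n) (SeparableClosure K), N.map ι ∈
        Submodule.span (AlgebraicClosure K) (Set.range ((AlgHom.mapMatrix ι).comp Ψ)) := by
      intro N
      have hN : N ∈ Submodule.span (SeparableClosure K) (Set.range Ψ) := by
        rw [hspan]; exact Submodule.mem_top
      induction hN using Submodule.span_induction with
      | mem y hy =>
        obtain ⟨x, rfl⟩ := hy
        exact Submodule.subset_span ⟨x, hmap x⟩
      | zero =>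
        have : (0 : Matrix (Fin n) (Fin n) (SeparableClosure K)).map ι = 0 := by
          ext i j; simp
        rw [this]; exact Submodule.zero_mem _
      | add y z _ _ hy hz =>
        have : (y + z).map ι = y.map ι + z.map ι := by
          ext i j; simp
        rw [this]; exact Submodule.add_mem _ hy hz
      | smul a y _ hy =>
        have : (a • y).map ι = (ι a) • y.map ι := by
          ext i j; simp
        rw [this]; exact Submodule.smul_mem _ _ hy
    rw [eq_top_iff]
    intro M _
    rw [Matrix.matrix_eq_sum_single M]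
    refine Submodule.sum_mem _ fun i _ => Submodule.sum_mem _ fun j _ => ?_
    have h2 : Matrix.single i j (M i j) =
        (M i j) • (Matrix.single i j (1 : SeparableClosure K)).map ι := by
      ext a b
      simp [Matrix.single_apply]
    rw [h2]
    exact Submodule.smul_mem _ _ (h1 _)
  · intro x
    obtain ⟨k, hk⟩ := htr x
    refine ⟨k, ?_⟩
    rw [hmap]
    have h3 : ((Ψ x).map ι).trace = ι (Ψ x).trace := by
      simp [Matrix.trace, map_sum]
    rw [h3, hk]
    exact ι.commutes k

end Pool.Agent.Helper75.PX
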